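import Pool.Agent.P8H39.TI.Stm

/-! # Project TI, package WB -/

set_option autoImplicit false

namespace Pool.Agent.P8H54.TI

open Finset
open Pool.Agent.P8H39.TI

noncomputable section

/-- one term of `T_m` -/
def cT (t m κ N a : ℕ) : ℝ :=
  ((m + a - 1).choose a : ℝ) * ((t + m - 1).choose (m + a) : ℝ) *
    (κ.descFactorial (m + a) : ℝ) / ((N + a).descFactorial (m + a) : ℝ)

lemma TT_eq (t m κ N : ℕ) : TT t m κ N = ∑ a ∈ range t, cT t m κ N a := rfl

/-- the polynomial inequality -/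
lemma poly_ineq {t m κ N a : ℝ} (ht : 1 ≤ t) (hm : 2 ≤ m) (ha0 : 0 ≤ a) (hta : t = 1 → a = 0)
    (ht2 : t ≠ 1 → 2 ≤ t) (hκ : m ≤ κ) (hN : t * (κ - 1) + 1 ≤ N) :
    (m + a) * (t + m) * (κ - m - a) ≤ m * (m + 1 + a) * (N - m) := by
  have h1 : 0 ≤ m * (m + 1 + a) := by positivity
  have h2 : m * (m + 1 + a) * (t * (κ - 1) + 1 - m) ≤ m * (m + 1 + a) * (N - m) :=
    mul_le_mul_of_nonneg_left (by linarith) h1
  refine le_trans ?_ h2
  have h3 : m * (m + 1 + a) * (t * (κ - 1) + 1 - m) - (m + a) * (t + m) * (κ - m - a) =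
      m * (t - 1) * (m * κ - 1) + a * (κ * ((t - 1) * (m - 1) - 1) + t * m + m + m ^ 2) +
      a ^ 2 * (t + m) := by ring
  have h4 : 0 ≤ m * (t - 1) * (m * κ - 1) := by
    apply mul_nonneg (mul_nonneg (by linarith) (by linarith))
    nlinarith
  have h5 : 0 ≤ a ^ 2 * (t + m) := by positivity
  have h6 : 0 ≤ a * (κ * ((t - 1) * (m - 1) - 1) + t * m + m + m ^ 2) := by
    by_cases h : t = 1
    · rw [hta h, zero_mul]
    · have ht2' := ht2 h
      apply mul_nonneg ha0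
      have h7 : 0 ≤ (t - 1) * (m - 1) - 1 := by nlinarith
      have h8 : 0 ≤ κ * ((t - 1) * (m - 1) - 1) := mul_nonneg (by linarith) h7
      nlinarith
  linarith

lemma step (t m κ N a : ℕ) (ht : 1 ≤ t) (hm : 2 ≤ m) (hmκ : m + 1 ≤ κ) (hN : t * (κ - 1) + 1 ≤ N)
    (hκN : κ ≤ N) (ha : a < t) : cT t (m + 1) κ N a ≤ cT t m κ N a := by
  have hD : 0 < (N + a).descFactorial (m + a) := Nat.descFactorial_pos.2 (by omega)
  have hDR : (0 : ℝ) < ((N + a).descFactorial (m + a) : ℝ) := by exact_mod_cast hD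
  have hNm : (0 : ℝ) < (N : ℝ) - m := by
    have : (m : ℝ) < N := by exact_mod_cast (by omega : m < N)
    linarith
  have hm0 : (0 : ℝ) < m := by exact_mod_cast (by omega : 0 < m)
  -- the four quotients
  have q1 : ((m + 1 + a - 1).choose a : ℝ) * m = ((m + a - 1).choose a : ℝ) * ((m : ℝ) + a) := by
    have h1 := Nat.choose_mul_succ_eq (m + a - 1) a
    have h2 : m + a - 1 + 1 = m + a := by omega
    have h3 : m + a - a = m := by omega
    rw [h2, h3] at h1
    have h4 : m + 1 + a - 1 = m + a := by omega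
    rw [h4]
    exact_mod_cast h1.symm
  have q2 : ((t + (m + 1) - 1).choose (m + 1 + a) : ℝ) * ((m : ℝ) + 1 + a) =
      ((t + m - 1).choose (m + a) : ℝ) * ((t : ℝ) + m) := by
    have h1 := Nat.add_one_mul_choose_eq (t + m - 1) (m + a)
    have h2 : t + m - 1 + 1 = t + m := by omega
    have h3 : m + a + 1 = m + 1 + a := by omega
    rw [h2, h3] at h1
    have h4 : t + (m + 1) - 1 = t + m := by omega
    rw [h4]
    have h5 : (((t + m) * (t + m - 1).choose (m + a) : ℕ) : ℝ) =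
        (((t + m).choose (m + 1 + a) * (m + 1 + a) : ℕ) : ℝ) := by rw [h1]
    push_cast at h5
    linarith
  have q3 : (κ.descFactorial (m + 1 + a) : ℝ) ≤ max 0 ((κ : ℝ) - m - a) * (κ.descFactorial (m + a) : ℝ) := by
    have h1 : m + 1 + a = (m + a) + 1 := by omega
    rw [h1, Nat.descFactorial_succ, Nat.cast_mul]
    apply mul_le_mul_of_nonneg_right _ (Nat.cast_nonneg _)
    rcases Nat.lt_or_ge κ (m + a) with h | h
    · rw [Nat.sub_eq_zero_of_le h.le]
      simp
    · rw [Nat.cast_sub h]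
      push_cast
      refine le_trans (le_of_eq ?_) (le_max_right _ _)
      ring
  have q4 : ((N + a).descFactorial (m + 1 + a) : ℝ) =
      ((N : ℝ) - m) * ((N + a).descFactorial (m + a) : ℝ) := by
    have h1 : m + 1 + a = (m + a) + 1 := by omega
    rw [h1, Nat.descFactorial_succ, Nat.cast_mul, Nat.cast_sub (by omega)]
    push_cast
    ring
  have hp : (((m : ℝ) + a) * ((t : ℝ) + m)) * max 0 ((κ : ℝ) - m - a) ≤ m * ((m : ℝ) + 1 + a) * ((N : ℝ) - m) := by
    rcases le_total ((κ : ℝ) - m - a) 0 with h | h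
    · rw [max_eq_left h, mul_zero]
      positivity
    · rw [max_eq_right h]
      refine poly_ineq (by exact_mod_cast ht) (by exact_mod_cast hm) (Nat.cast_nonneg _) ?_ ?_ ?_ ?_
      · intro h2
        have : t = 1 := by exact_mod_cast h2
        have : a = 0 := by omega
        rw [this]; simp
      · intro h2
        have : t ≠ 1 := by
          intro h3; apply h2; rw [h3]; simp
        exact_mod_cast (by omega : 2 ≤ t)
      · exact_mod_cast (by omega : m ≤ κ)
      · have h3 : ((t * (κ - 1) + 1 : ℕ) : ℝ) ≤ N := by exact_mod_cast hN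
        rw [Nat.cast_add, Nat.cast_mul, Nat.cast_sub (by omega)] at h3
        push_cast at h3
        exact h3
  unfold cT
  rw [q4, div_le_div_iff₀ (by positivity) hDR]
  set A1 := ((m + 1 + a - 1).choose a : ℝ)
  set A0 := ((m + a - 1).choose a : ℝ) with hA0
  set B1 := ((t + (m + 1) - 1).choose (m + 1 + a) : ℝ)
  set B0 := ((t + m - 1).choose (m + a) : ℝ) with hB0
  set K1 := (κ.descFactorial (m + 1 + a) : ℝ)
  set K0 := (κ.descFactorial (m + a) : ℝ) with hK0
  set D := ((N + a).descFactorial (m + a) : ℝ)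
  have hA0' : 0 ≤ A0 := Nat.cast_nonneg _
  have hB0' : 0 ≤ B0 := Nat.cast_nonneg _
  have hK0' : 0 ≤ K0 := Nat.cast_nonneg _
  have ha0 : (0 : ℝ) ≤ a := Nat.cast_nonneg _
  have hpos : 0 < (m : ℝ) * ((m : ℝ) + 1 + a) := by positivity
  have hA1 : A1 = A0 * ((m : ℝ) + a) / m := by rw [eq_div_iff hm0.ne']; exact q1
  have hB1 : B1 = B0 * ((t : ℝ) + m) / ((m : ℝ) + 1 + a) := by
    rw [eq_div_iff (by positivity)]; exact q2
  have h1 : A1 * B1 * K1 ≤ A0 * B0 * K0 * ((N : ℝ) - m) := by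
    calc A1 * B1 * K1 ≤ A1 * B1 * (max 0 ((κ : ℝ) - m - a) * K0) :=
          mul_le_mul_of_nonneg_left q3 (mul_nonneg (Nat.cast_nonneg _) (Nat.cast_nonneg _))
      _ = A0 * B0 * K0 * ((((m : ℝ) + a) * ((t : ℝ) + m)) * max 0 ((κ : ℝ) - m - a) /
          (m * ((m : ℝ) + 1 + a))) := by
          rw [hA1, hB1]
          field_simp
      _ ≤ A0 * B0 * K0 * ((N : ℝ) - m) := by
          apply mul_le_mul_of_nonneg_left _ (by positivity)
          rw [div_le_iff₀ hpos]
          linarith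
  calc A1 * B1 * K1 * D ≤ A0 * B0 * K0 * ((N : ℝ) - m) * D := mul_le_mul_of_nonneg_right h1 hDR.le
    _ = _ := by ring

/-- the terms for `m = 2` -/
def cb (t κ N b : ℕ) : ℝ :=
  ((t + 1).choose b : ℝ) * (κ.descFactorial b : ℝ) / ((N - 1).ascFactorial b : ℝ)

def GG (t κ N b : ℕ) : ℝ := (b : ℝ) * ((N : ℝ) + b - 2) * cb t κ N b

lemma GG_succ (t κ N b : ℕ) (hN : 2 ≤ N) (hb : b ≤ t + 1) :
    GG t κ N (b + 1) = ((t : ℝ) + 1 - b) * ((κ : ℝ) - b) * cb t κ N b := by
  have hA : (0 : ℝ) < ((N - 1).ascFactorial b : ℝ) := by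
    obtain ⟨M, hM⟩ : ∃ M, N - 1 = M + 1 := ⟨N - 2, by omega⟩
    rw [hM]
    exact_mod_cast Nat.ascFactorial_pos M b
  have hNb : (0 : ℝ) < (N : ℝ) + b - 1 := by
    have : (2 : ℝ) ≤ N := by exact_mod_cast hN
    have : (0 : ℝ) ≤ b := Nat.cast_nonneg _
    linarith
  have e1 : (((t + 1).choose (b + 1) : ℕ) : ℝ) * ((b : ℝ) + 1) =
      (((t + 1).choose b : ℕ) : ℝ) * ((t : ℝ) + 1 - b) := by
    have h1 := Nat.choose_succ_right_eq (t + 1) b
    have h2 : (((t + 1).choose (b + 1) * (b + 1) : ℕ) : ℝ) = (((t + 1).choose b * (t + 1 - b) : ℕ) : ℝ) := by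
      rw [h1]
    rw [Nat.cast_mul, Nat.cast_mul, Nat.cast_sub hb] at h2
    push_cast at h2
    exact h2
  have e2 : (κ.descFactorial (b + 1) : ℝ) = ((κ : ℝ) - b) * (κ.descFactorial b : ℝ) := by
    rw [Nat.descFactorial_succ, Nat.cast_mul]
    rcases Nat.lt_or_ge κ b with h | h
    · rw [Nat.descFactorial_of_lt h]
      simp
    · rw [Nat.cast_sub h]
  have e3 : ((N - 1).ascFactorial (b + 1) : ℝ) = ((N : ℝ) + b - 1) * ((N - 1).ascFactorial b : ℝ) := by
    rw [Nat.ascFactorial_succ, Nat.cast_mul]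
    congr 1
    rw [Nat.cast_add, Nat.cast_sub (by omega)]
    push_cast
    ring
  unfold GG cb
  rw [e2, e3]
  push_cast
  rw [mul_div_assoc', mul_div_assoc', div_eq_div_iff (by positivity) hA.ne']
  linear_combination (((N : ℝ) + b - 1) * ((κ : ℝ) - b) * (κ.descFactorial b : ℝ) *
    ((N - 1).ascFactorial b : ℝ)) * e1

lemma TT_two (t κ N : ℕ) (ht : 1 ≤ t) (hκ : 2 ≤ κ) (hN : t * (κ - 1) + 1 ≤ N) : TT t 2 κ N ≤ 1 := by
  have hN2 : 2 ≤ N := by
    have : 1 ≤ t * (κ - 1) := Nat.mul_pos ht (by omega)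
    omega
  have hNR : (t : ℝ) * ((κ : ℝ) - 1) + 1 ≤ N := by
    have h3 : ((t * (κ - 1) + 1 : ℕ) : ℝ) ≤ N := by exact_mod_cast hN
    rw [Nat.cast_add, Nat.cast_mul, Nat.cast_sub (by omega)] at h3
    push_cast at h3
    exact h3
  have hκ2 : (2 : ℝ) ≤ κ := by exact_mod_cast hκ
  have ht1 : (1 : ℝ) ≤ t := by exact_mod_cast ht
  have hc0 : ∀ b, 0 ≤ cb t κ N b := fun b => by unfold cb; positivity
  -- telescoping
  have h1 : ∑ b ∈ range (t + 2), (GG t κ N (b + 1) - GG t κ N b) = 0 := by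
    rw [sum_range_sub]
    unfold GG cb
    rw [Nat.choose_eq_zero_of_lt (by omega : t + 1 < t + 2)]
    simp
  have h2 : ∑ b ∈ range (t + 2), (((t : ℝ) + 1) * κ - ((N : ℝ) + κ + t - 1) * b) * cb t κ N b = 0 := by
    rw [← h1]
    refine sum_congr rfl fun b hb => ?_
    rw [mem_range] at hb
    rw [GG_succ t κ N b hN2 (by omega)]
    unfold GG
    ring
  have h3 : ((N : ℝ) + κ + t - 1) * ∑ b ∈ range (t + 2), ((b : ℝ) - 1) * cb t κ N b ≤ 0 := by
    have h4 : ((N : ℝ) + κ + t - 1) * ∑ b ∈ range (t + 2), ((b : ℝ) - 1) * cb t κ N b =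
        (((t : ℝ) + 1) * κ - ((N : ℝ) + κ + t - 1)) * ∑ b ∈ range (t + 2), cb t κ N b -
        ∑ b ∈ range (t + 2), (((t : ℝ) + 1) * κ - ((N : ℝ) + κ + t - 1) * b) * cb t κ N b := by
      rw [mul_sum, mul_sum, ← sum_sub_distrib]
      refine sum_congr rfl fun b _ => ?_
      ring
    rw [h4, h2, sub_zero]
    apply mul_nonpos_of_nonpos_of_nonneg _ (sum_nonneg fun b _ => hc0 b)
    nlinarith
  have h4 : ∑ b ∈ range (t + 2), ((b : ℝ) - 1) * cb t κ N b ≤ 0 := by
    by_contra hcon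
    push Not at hcon
    have : 0 < (N : ℝ) + κ + t - 1 := by
      have : (2 : ℝ) ≤ N := by exact_mod_cast hN2
      linarith
    have := mul_pos this hcon
    linarith
  -- the first two terms
  rw [sum_range_succ', sum_range_succ'] at h4
  have h5 : TT t 2 κ N = ∑ b ∈ range t, (((b + 1 + 1 : ℕ) : ℝ) - 1) * cb t κ N (b + 1 + 1) := by
    rw [TT_eq]
    refine sum_congr rfl fun a _ => ?_
    unfold cT cb
    have e1 : (2 + a - 1).choose a = a + 1 := by
      have : 2 + a - 1 = a + 1 := by omega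
      rw [this, Nat.choose_succ_self_right]
    have e2 : t + 2 - 1 = t + 1 := by omega
    have e3 : 2 + a = a + 1 + 1 := by omega
    have e4 : (N + a).descFactorial (a + 1 + 1) = (N - 1).ascFactorial (a + 1 + 1) := by
      obtain ⟨M, rfl⟩ : ∃ M, N = M + 2 := ⟨N - 2, by omega⟩
      have h6 := Nat.add_descFactorial_eq_ascFactorial M (a + 1 + 1)
      have h7 : M + 2 + a = M + (a + 1 + 1) := by omega
      have h8 : M + 2 - 1 = M + 1 := by omega
      rw [h7, h8, h6]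
    rw [e1, e2, e3, e4]
    push_cast
    ring
  rw [h5]
  have h6 : cb t κ N 0 = 1 := by unfold cb; simp
  rw [h6] at h4
  push_cast at h4 ⊢
  linarith

theorem t_WB : S_WB := by
  intro t m κ N ht hm hmκ hN hκN
  obtain ⟨i, rfl⟩ : ∃ i, m = 2 + i := ⟨m - 2, by omega⟩
  clear hm
  induction i with
  | zero => exact TT_two t κ N ht (by omega) hN
  | succ i ih =>
    refine le_trans ?_ (ih (by omega))
    rw [TT_eq, TT_eq]
    refine sum_le_sum fun a ha => ?_
    rw [mem_range] at ha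
    exact step t (2 + i) κ N a ht (by omega) (by omega) hN hκN ha

end

end Pool.Agent.P8H54.TI
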