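import Pool.Agent.P8H39.TI.Stm

/-! # Project TI, packages POL and WIL -/

set_option autoImplicit false

namespace Pool.Agent.P8H54.TI

open Finset Polynomial
open Pool.Agent.P8H39.TI

noncomputable section

/-- the polynomials `N_b` -/
def NB (n k b : ℕ) : Polynomial ℝ :=
  ∏ u ∈ range b, (C (((n : ℝ) - k + 1 + u) * ((k : ℝ) - u)) - X)

lemma NB_succ (n k b : ℕ) : NB n k (b + 1) =
    NB n k b * (C (((n : ℝ) - k + 1 + b) * ((k : ℝ) - b)) - X) := by
  unfold NB
  rw [prod_range_succ]

lemma NB_eval (n k b : ℕ) (z : ℝ) : (NB n k b).eval z =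
    ∏ u ∈ range b, ((((n : ℝ) - k + 1 + u) * ((k : ℝ) - u)) - z) := by
  unfold NB
  rw [eval_prod]
  refine prod_congr rfl fun u _ => ?_
  rw [eval_sub, eval_C, eval_X]

lemma key (n k j : ℕ) (hn : 2 * k ≤ n) (hj : j ≤ k) (b : ℕ) :
    w n k j * (NB n k b).eval (y n j) =
      (b.factorial : ℝ) * ((n - 2 * k + b).factorial : ℝ) *
        (((k - j).choose b : ℝ) * ((n - k + b - j).choose (k - j) : ℝ)) := by
  induction b with
  | zero =>
    rw [NB_eval]
    simp only [range_zero, prod_empty, mul_one, Nat.factorial_zero, Nat.cast_one, add_zero, Nat.choose_zero_right,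
      one_mul]
    unfold w
    have h1 : k - j ≤ n - k - j := by omega
    have h2 := Nat.choose_mul_factorial_mul_factorial h1
    have h3 : n - k - j - (k - j) = n - 2 * k := by omega
    rw [h3] at h2
    have h4 : ((k - j).factorial : ℝ) ≠ 0 := by exact_mod_cast (Nat.factorial_pos _).ne'
    rw [div_eq_iff h4]
    have h5 : (((n - k - j).choose (k - j) * (k - j).factorial * (n - 2 * k).factorial : ℕ) : ℝ) =
        ((n - k - j).factorial : ℝ) := by rw [h2]
    push_cast at h5
    rw [← h5]
    ring
  | succ b ih =>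
    rw [NB_eval, prod_range_succ, ← NB_eval, ← mul_assoc, ih]
    -- the two choose identities
    have e1 : (((k - j).choose (b + 1) : ℕ) : ℝ) * ((b : ℝ) + 1) =
        (((k - j).choose b : ℕ) : ℝ) * ((k : ℝ) - j - b) := by
      rcases Nat.lt_or_ge (k - j) b with h | h
      · rw [Nat.choose_eq_zero_of_lt h, Nat.choose_eq_zero_of_lt (by omega : k - j < b + 1)]
        simp
      · have h1 := Nat.choose_succ_right_eq (k - j) b
        have h2 : (((k - j).choose (b + 1) * (b + 1) : ℕ) : ℝ) = (((k - j).choose b * (k - j - b) : ℕ) : ℝ) := by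
          rw [h1]
        push_cast [Nat.cast_sub h, Nat.cast_sub hj] at h2
        linarith
    have e2 : (((n - k + b - j).choose (k - j) : ℕ) : ℝ) * ((n : ℝ) - k + b - j + 1) =
        (((n - k + (b + 1) - j).choose (k - j) : ℕ) : ℝ) * ((n : ℝ) - 2 * k + b + 1) := by
      have h1 := Nat.choose_mul_succ_eq (n - k + b - j) (k - j)
      have h2 : n - k + b - j + 1 = n - k + (b + 1) - j := by omega
      have h3 : n - k + (b + 1) - j - (k - j) = n - 2 * k + b + 1 := by omega
      rw [h2, h3] at h1
      have h4 : (((n - k + b - j).choose (k - j) * (n - k + (b + 1) - j) : ℕ) : ℝ) =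
          (((n - k + (b + 1) - j).choose (k - j) * (n - 2 * k + b + 1) : ℕ) : ℝ) := by rw [h1]
      have h5 : ((n - k + (b + 1) - j : ℕ) : ℝ) = (n : ℝ) - k + b - j + 1 := by
        rw [Nat.cast_sub (by omega), Nat.cast_add, Nat.cast_sub (by omega)]
        push_cast
        ring
      have h6 : ((n - 2 * k + b + 1 : ℕ) : ℝ) = (n : ℝ) - 2 * k + b + 1 := by
        rw [Nat.cast_add, Nat.cast_add, Nat.cast_sub hn]
        push_cast
        ring
      rw [Nat.cast_mul, Nat.cast_mul, h5, h6] at h4
      exact h4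
    have e3 : ((b + 1).factorial : ℝ) = ((b : ℝ) + 1) * (b.factorial : ℝ) := by
      rw [Nat.factorial_succ]; push_cast; ring
    have e4 : ((n - 2 * k + (b + 1)).factorial : ℝ) =
        ((n : ℝ) - 2 * k + b + 1) * ((n - 2 * k + b).factorial : ℝ) := by
      rw [← add_assoc, Nat.factorial_succ, Nat.cast_mul]
      congr 1
      rw [Nat.cast_add, Nat.cast_add, Nat.cast_sub hn]
      push_cast
      ring
    have e5 : ((n : ℝ) - k + 1 + b) * ((k : ℝ) - b) - y n j =
        ((n : ℝ) - k + b - j + 1) * ((k : ℝ) - j - b) := by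
      unfold y
      ring
    rw [e5, e3, e4]
    calc (b.factorial : ℝ) * ((n - 2 * k + b).factorial : ℝ) *
          (((k - j).choose b : ℝ) * ((n - k + b - j).choose (k - j) : ℝ)) *
          (((n : ℝ) - k + b - j + 1) * ((k : ℝ) - j - b))
        = (b.factorial : ℝ) * ((n - 2 * k + b).factorial : ℝ) *
          ((((k - j).choose b : ℝ) * ((k : ℝ) - j - b)) *
          (((n - k + b - j).choose (k - j) : ℝ) * ((n : ℝ) - k + b - j + 1))) := by ring
      _ = (b.factorial : ℝ) * ((n - 2 * k + b).factorial : ℝ) *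
          ((((k - j).choose (b + 1) : ℕ) : ℝ) * ((b : ℝ) + 1) *
          ((((n - k + (b + 1) - j).choose (k - j) : ℕ) : ℝ) * ((n : ℝ) - 2 * k + b + 1))) := by
          rw [← e1, ← e2]
      _ = _ := by ring

lemma NB_deg (n k b : ℕ) : (NB n k b).natDegree = b ∧ (NB n k b).leadingCoeff ≠ 0 := by
  have h0 : ∀ c : ℝ, (C c - X : Polynomial ℝ) = -(X - C c) := fun c => by ring
  induction b with
  | zero => unfold NB; simp
  | succ b ih =>
    rw [NB_succ, h0]
    have h1 : NB n k b ≠ 0 := by
      intro h
      apply ih.2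
      rw [h]; simp
    have h2 : (-(X - C (((n : ℝ) - k + 1 + b) * ((k : ℝ) - b))) : Polynomial ℝ) ≠ 0 := by
      rw [neg_ne_zero]
      exact X_sub_C_ne_zero _
    refine ⟨?_, ?_⟩
    · rw [natDegree_mul h1 h2, ih.1, natDegree_neg, natDegree_X_sub_C]
    · rw [leadingCoeff_mul, leadingCoeff_neg, leadingCoeff_X_sub_C]
      simpa using ih.2

/-- the `N_b` span the polynomials of small degree -/
lemma span (n k : ℕ) (φ : Polynomial ℝ →ₗ[ℝ] ℝ) (t : ℕ) (h : ∀ b, b < t → φ (NB n k b) = 0) :
    ∀ P : Polynomial ℝ, P.degree < (t : WithBot ℕ) → φ P = 0 := by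
  induction t with
  | zero =>
    intro P hP
    have : P = 0 := by
      rw [← degree_eq_bot]
      exact Nat.WithBot.lt_zero_iff.1 hP
    rw [this, map_zero]
  | succ t ih =>
    intro P hP
    obtain ⟨hd, hl⟩ := NB_deg n k t
    set c := P.coeff t / (NB n k t).leadingCoeff with hc
    have h1 : (P - C c * NB n k t).degree < (t : WithBot ℕ) := by
      rw [degree_lt_iff_coeff_zero]
      intro m hm
      rcases Nat.eq_or_lt_of_le hm with h | h
      · subst h
        rw [coeff_sub, coeff_C_mul]
        have : (NB n k t).coeff t = (NB n k t).leadingCoeff := by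
          unfold leadingCoeff
          rw [hd]
        rw [this, hc, div_mul_cancel₀ _ hl, sub_self]
      · rw [coeff_sub, coeff_C_mul]
        have a1 : P.coeff m = 0 := by
          apply coeff_eq_zero_of_degree_lt
          refine hP.trans_le ?_
          exact_mod_cast h
        have a2 : (NB n k t).coeff m = 0 := by
          apply coeff_eq_zero_of_natDegree_lt
          rw [hd]
          exact h
        rw [a1, a2]
        ring
    have h2 := ih (fun b hb => h b (by omega)) _ h1
    rw [map_sub, ← smul_eq_C_mul, map_smul, h t (by omega), smul_zero, sub_zero] at h2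
    exact h2

theorem t_POL : S_POL := by
  intro n k t htk hn x hx P hP
  set φ : Polynomial ℝ →ₗ[ℝ] ℝ :=
    { toFun := fun P => ∑ j ∈ range (k + 1), ev n k P j * x j
      map_add' := by
        intro P Q
        rw [← sum_add_distrib]
        refine sum_congr rfl fun j _ => ?_
        unfold ev
        rw [eval_add]
        ring
      map_smul' := by
        intro c P
        rw [RingHom.id_apply, smul_eq_mul, mul_sum]
        refine sum_congr rfl fun j _ => ?_
        unfold ev
        rw [eval_smul, smul_eq_mul]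
        ring } with hφ
  refine span n k φ t (fun b hb => ?_) P hP
  show ∑ j ∈ range (k + 1), ev n k (NB n k b) j * x j = 0
  have h1 := hx (k - b) (by omega) (by omega)
  have h2 : ∑ j ∈ range (k + 1), ev n k (NB n k b) j * x j =
      (b.factorial : ℝ) * ((n - 2 * k + b).factorial : ℝ) * ∑ j ∈ range (k - b + 1),
      (-1 : ℝ) ^ j * ((k - j).choose (k - b - j) : ℝ) * ((n - (k - b) - j).choose (k - j) : ℝ) * x j := by
    have h3 : ∑ j ∈ range (k + 1), ev n k (NB n k b) j * x j =
        ∑ j ∈ range (k - b + 1), ev n k (NB n k b) j * x j := by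
      symm
      refine sum_subset ?_ ?_
      · intro j hj
        rw [mem_range] at hj ⊢
        omega
      · intro j hj hj2
        rw [mem_range] at hj hj2
        have h4 := key n k j hn (by omega) b
        rw [Nat.choose_eq_zero_of_lt (by omega : k - j < b)] at h4
        unfold ev
        have h5 : (-1 : ℝ) ^ j * w n k j * (NB n k b).eval (y n j) =
            (-1 : ℝ) ^ j * (w n k j * (NB n k b).eval (y n j)) := by ring
        rw [h5, h4]
        simp
    rw [h3, mul_sum]
    refine sum_congr rfl fun j hj => ?_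
    rw [mem_range] at hj
    have h4 := key n k j hn (by omega) b
    have h5 : (k - j).choose b = (k - j).choose (k - b - j) := by
      rw [← Nat.choose_symm (by omega : k - b - j ≤ k - j)]
      congr 1
      omega
    have h6 : n - k + b - j = n - (k - b) - j := by omega
    rw [h5, h6] at h4
    unfold ev
    have h7 : (-1 : ℝ) ^ j * w n k j * (NB n k b).eval (y n j) * x j =
        (-1 : ℝ) ^ j * (w n k j * (NB n k b).eval (y n j)) * x j := by ring
    rw [h7, h4]
    ring
  rw [h2, h1, mul_zero]

/-- package WIL -/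
theorem t_WIL (hA : S_WA) (hB : S_WB) : S_WIL := by
  intro n k t ht htk hnk
  obtain ⟨κ, rfl⟩ : ∃ κ, k = t + κ := ⟨k - t, by omega⟩
  have hκ : 1 ≤ κ := by omega
  have e0 : t + κ - t = κ := by omega
  rw [e0] at hnk
  have hexp : (t + 1) * (κ + 1) = t * κ + t + κ + 1 := by ring
  have hmul : t + κ ≤ t * κ + 1 := by
    obtain ⟨a, rfl⟩ : ∃ a, t = a + 1 := ⟨t - 1, by omega⟩
    obtain ⟨b, rfl⟩ : ∃ b, κ = b + 1 := ⟨κ - 1, by omega⟩
    have : (a + 1) * (b + 1) = a * b + a + b + 1 := by ring
    omega
  have h2k : 2 * (t + κ) ≤ n := by omega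
  obtain ⟨hW1, hW2⟩ := hA n (t + κ) t ht htk h2k
  set P : Polynomial ℝ := ∑ b ∈ range t,
    C ((-1 : ℝ) ^ (t - 1 - b) * ((t + κ - 1 - b).choose (t + κ - t) : ℝ) /
      ((n - (t + κ) - t + b).choose (t + κ - t) : ℝ) /
      ((b.factorial : ℝ) * ((n - 2 * (t + κ) + b).factorial : ℝ))) * NB n (t + κ) b with hP
  have hev : ∀ j, j ≤ t + κ → ev n (t + κ) P j = theta n (t + κ) t j := by
    intro j hj
    unfold ev theta
    rw [hP, eval_finsetSum, mul_sum]
    refine sum_congr rfl fun b _ => ?_
    rw [eval_mul, eval_C]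
    have h4 := key n (t + κ) j h2k hj b
    have f1 : (b.factorial : ℝ) ≠ 0 := by exact_mod_cast (Nat.factorial_pos _).ne'
    have f2 : ((n - 2 * (t + κ) + b).factorial : ℝ) ≠ 0 := by exact_mod_cast (Nat.factorial_pos _).ne'
    set c := (-1 : ℝ) ^ (t - 1 - b) * ((t + κ - 1 - b).choose (t + κ - t) : ℝ) /
      ((n - (t + κ) - t + b).choose (t + κ - t) : ℝ)
    calc (-1 : ℝ) ^ j * w n (t + κ) j * (c / ((b.factorial : ℝ) * ((n - 2 * (t + κ) + b).factorial : ℝ)) *
          (NB n (t + κ) b).eval (y n j))
        = (-1 : ℝ) ^ j * (c / ((b.factorial : ℝ) * ((n - 2 * (t + κ) + b).factorial : ℝ))) *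
          (w n (t + κ) j * (NB n (t + κ) b).eval (y n j)) := by ring
      _ = _ := by
          rw [h4]
          field_simp
  refine ⟨P, ?_, ?_, ?_⟩
  · rw [degree_lt_iff_coeff_zero]
    intro m hm
    rw [hP, finsetSum_coeff]
    refine sum_eq_zero fun b hb => ?_
    rw [mem_range] at hb
    rw [coeff_C_mul, coeff_eq_zero_of_natDegree_lt (by rw [(NB_deg n (t + κ) b).1]; omega), mul_zero]
  · intro j hj1 hjt
    rw [hev j (by omega)]
    exact hW1 j hj1 hjt
  · intro j htj hjk
    rw [hev j hjk]
    obtain ⟨m, rfl⟩ : ∃ m, j = t + m := ⟨j - t, by omega⟩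
    rw [hW2 m (by omega) hjk, e0]
    have hT0 : 0 ≤ TT t m κ (n - (t + κ) - t) := by
      unfold TT
      exact sum_nonneg fun a _ => by positivity
    rcases Nat.even_or_odd (m - 1) with he | ho
    · rw [he.neg_one_pow]
      linarith
    · rw [ho.neg_one_pow]
      have hm2 : 2 ≤ m := by
        obtain ⟨q, hq⟩ := ho
        omega
      have h1 : t * (κ - 1) + 1 ≤ n - (t + κ) - t := by
        have : t * (κ - 1) = t * κ - t := by
          rw [Nat.mul_sub, mul_one]
        omega
      have h2 := hB t m κ (n - (t + κ) - t) ht hm2 (by omega) h1 (by omega)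
      linarith

end

end Pool.Agent.P8H54.TI
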